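import Pool.Agent.V11279.OC.Main

/-! `H` centralizes `Y`. -/

set_option autoImplicit false
set_option linter.unusedSectionVars false

namespace Pool.Agent.V11279.OC

open scoped commutatorElement

universe u

section main

variable {G : Type u} [Group G] [LinearOrder G] [MulLeftMono G] [MulRightMono G]
  (H Y : Subgroup G) [hHn : H.Normal] [hYn : Y.Normal]

/-- the elements of `H` which centralize `Y` -/
def Ce : Subgroup G where
  carrier := {z | z ∈ H ∧ ∀ y ∈ Y, ⁅z, y⁆ = 1}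
  one_mem' := ⟨H.one_mem, fun y _ => by simp [commutatorElement_def]⟩
  mul_mem' := by
    rintro a b ⟨ha, ha'⟩ ⟨hb, hb'⟩
    refine ⟨H.mul_mem ha hb, fun y hy => ?_⟩
    have h1 : ⁅a * b, y⁆ = a * ⁅b, y⁆ * a⁻¹ * ⁅a, y⁆ := by
      simp only [commutatorElement_def]; group
    rw [h1, ha' y hy, hb' y hy]; group
  inv_mem' := by
    rintro a ⟨ha, ha'⟩
    refine ⟨H.inv_mem ha, fun y hy => ?_⟩
    have h1 : ⁅a⁻¹, y⁆ = a⁻¹ * ⁅a, y⁆⁻¹ * a := by
      simp only [commutatorElement_def]; group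
    rw [h1, ha' y hy]; group

lemma mem_Ce {z : G} : z ∈ Ce H Y ↔ z ∈ H ∧ ∀ y ∈ Y, ⁅z, y⁆ = 1 := Iff.rfl

instance : (Ce H Y).Normal where
  conj_mem := by
    rintro a ⟨ha, ha'⟩ g
    refine ⟨hHn.conj_mem a ha g, fun y hy => ?_⟩
    have h1 : ⁅g * a * g⁻¹, y⁆ = g * ⁅a, g⁻¹ * y * g⁻¹⁻¹⁆ * g⁻¹ := by
      simp only [commutatorElement_def]; group
    rw [h1, ha' _ (hYn.conj_mem y hy g⁻¹)]; group

/-- Main lemma. -/
theorem main_lemma (PH : Set G) (hPH : RelCone H PH)
    (hU : ∀ K : Subgroup G, K.Normal → (∃ P, RelCone K P) → K = ⊥ ∨ K = H ∨ K = ⊤)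
    (hG : ∀ g k : G, ⁅g, k⁆ ∈ H)
    (hHH : ∀ h ∈ H, ∀ k ∈ H, ∀ y ∈ Y, ⁅⁅h, k⁆, y⁆ = 1)
    (hc : ∀ x ∈ H, ∀ y ∈ Y, Commute ⁅y, x⁆ y)
    (hne : Ce H Y ≠ ⊥) : ∀ x ∈ H, ∀ y ∈ Y, ⁅x, y⁆ = 1 := by
  set L := Ce H Y with hLdef
  have hL : ∀ z, z ∈ L ↔ z ∈ H ∧ ∀ y ∈ Y, ⁅z, y⁆ = 1 := fun z => Iff.rfl
  have hLH : L ≤ H := fun z hz => hz.1
  have hHL : ∀ h ∈ H, ∀ k ∈ H, ⁅h, k⁆ ∈ L := fun h hh k hk =>
    ⟨by
      rw [commutatorElement_def]
      exact H.mul_mem (H.mul_mem (H.mul_mem hh hk) (H.inv_mem hh)) (H.inv_mem hk), hHH h hh k hk⟩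
  have hab : ∀ a ∈ H.map (QuotientGroup.mk' L), ∀ b ∈ H.map (QuotientGroup.mk' L), a * b = b * a := by
    rintro _ ⟨a, ha, rfl⟩ _ ⟨b, hb, rfl⟩
    rw [← map_mul, ← map_mul]
    refine (QuotientGroup.eq.2 ?_)
    have := hHL _ (H.inv_mem hb) _ (H.inv_mem ha)
    rw [commutatorElement_def] at this
    rwa [show (a * b)⁻¹ * (b * a) = b⁻¹ * a⁻¹ * b⁻¹⁻¹ * a⁻¹⁻¹ by group]
  have hBn : (H.map (QuotientGroup.mk' L)).Normal :=
    Subgroup.Normal.map inferInstance _ (QuotientGroup.mk'_surjective L)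
  -- positive relations
  have hrel : ∀ x ∈ H, ∃ a : G ⧸ L → G ⧸ L, Nu a ∧ a (QuotientGroup.mk' L x) = 1 := by
    obtain ⟨K, hKn, hLK, hKH, hKP, hKa⟩ := pos_rel hLH hHL hG PH hPH
    have hHK : H ≤ K := by
      rcases hU K hKn hKP with h | h | h
      · exact absurd (le_antisymm (h ▸ hLK) bot_le) hne
      · exact h.ge
      · rw [h]; exact le_top
    exact fun x hx => hKa x (hHK hx)
  by_contra hcon
  -- a positive element outside `L`
  obtain ⟨x, hx, hx1, hxL⟩ : ∃ x ∈ H, 1 < x ∧ x ∉ L := by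
    push Not at hcon
    obtain ⟨x, hx, y, hy, hxy⟩ := hcon
    have h1 : x ∉ L := fun h => hxy (h.2 y hy)
    rcases lt_trichotomy 1 x with h | h | h
    · exact ⟨x, hx, h, h1⟩
    · exact absurd (h ▸ L.one_mem) h1
    · exact ⟨x⁻¹, H.inv_mem hx, one_lt_inv'.2 h, fun h' => h1 (by simpa using L.inv_mem h')⟩
  set v := QuotientGroup.mk' L x with hv
  have hvB : v ∈ H.map (QuotientGroup.mk' L) := ⟨x, hx, rfl⟩
  have hv1 : v ≠ 1 := fun h => hxL ((QuotientGroup.eq_one_iff x).1 h)
  set E := D H Y L v with hE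
  have hEc : IsCvx E := isCvx_D H Y L v
  have hEne : E ≠ ⊥ := D_ne H Y L hL hvB hv1
  have hxE : x ∉ E := fun h => not_mem_small' hx1 (D_small H Y L hL hx hx1 (hc x hx) h)
  have hHfix : ∀ h ∈ H, QuotientGroup.mk' L h * v * (QuotientGroup.mk' L h)⁻¹ = v := by
    intro h hh
    rw [hab _ ⟨h, hh, rfl⟩ v hvB, mul_inv_cancel_right]
  have hHE : ∀ h ∈ H, cj h E = E := by
    intro h hh
    rw [hE, ← D_conj, hHfix h hh]
  have hcjH : ∀ (g h : G), h ∈ H → cj (g * h) E = cj g E := by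
    intro g h hh
    rw [← cj_cj, hHE h hh]
  let Γ : Subgroup G :=
    { carrier := {g | cj g E = E}
      one_mem' := cj_one E
      mul_mem' := by
        intro a b ha hb
        show cj (a * b) E = E
        rw [← cj_cj, hb, ha]
      inv_mem' := by
        intro a ha
        show cj a⁻¹ E = E
        have ha' : cj a E = E := ha
        calc cj a⁻¹ E = cj a⁻¹ (cj a E) := by rw [ha']
          _ = E := by rw [cj_cj, inv_mul_cancel, cj_one] }
  have hHΓ : H ≤ Γ := fun h hh => hHE h hh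
  have hcomm : ∀ g k : G, ∃ h ∈ H, k * g * k⁻¹ = g * h := by
    intro g k
    refine ⟨⁅g⁻¹, k⁆, hG _ _, ?_⟩
    rw [commutatorElement_def]; group
  have hΓn : Γ.Normal := by
    refine ⟨fun g hg k => ?_⟩
    obtain ⟨h, hh, e⟩ := hcomm g k
    show cj (k * g * k⁻¹) E = E
    rw [e, hcjH g h hh]
    exact hg
  have htot : ∀ g k : G, cj g E ≤ cj k E ∨ cj k E ≤ cj g E := fun g k => (hEc.cj g).total (hEc.cj k)
  have hΓP : RelCone Γ {g | E < cj g E} := by
    refine ⟨?_, ?_, ?_, ?_, ?_⟩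
    · intro a ha b hb
      have h1 : cj a E < cj a (cj b E) := cj_strict a hb
      rw [cj_cj] at h1
      exact lt_trans (show E < cj a E from ha) h1
    · intro a ha k
      obtain ⟨h, hh, e⟩ := hcomm a k
      show E < cj (k * a * k⁻¹) E
      rw [e, hcjH a h hh]
      exact ha
    · intro a
      by_cases h1 : cj a E = E
      · exact Or.inl h1
      rcases htot a 1 with h | h
      · right; right
        rw [cj_one] at h
        have h2 : cj a E < E := lt_of_le_of_ne h h1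
        have h3 := cj_strict a⁻¹ h2
        rw [cj_cj, inv_mul_cancel, cj_one] at h3
        exact h3
      · right; left
        rw [cj_one] at h
        exact lt_of_le_of_ne h (Ne.symm h1)
    · intro a ha hb
      have h1 : cj a E < cj a (cj a⁻¹ E) := cj_strict a hb
      rw [cj_cj, mul_inv_cancel, cj_one] at h1
      exact lt_asymm (show E < cj a E from ha) h1
    · intro a ha h
      exact (show E < cj a E from ha).ne (show cj a E = E from h).symm
  have hHne : H ≠ ⊥ := fun h => by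
    rw [h, Subgroup.mem_bot] at hx
    exact hx1.ne' hx
  rcases hU Γ hΓn ⟨_, hΓP⟩ with h | h | h
  · exact hHne (le_antisymm (h ▸ hHΓ) bot_le)
  · -- the case `Γ = H`
    have hBconj : ∀ g : G, QuotientGroup.mk' L g * v * (QuotientGroup.mk' L g)⁻¹ ∈
        H.map (QuotientGroup.mk' L) := fun g => hBn.conj_mem v hvB _
    have hlt : ∀ w w' : G ⧸ L, w ∈ H.map (QuotientGroup.mk' L) → w' ∈ H.map (QuotientGroup.mk' L) →
        ∀ T : Subgroup G, D H Y L w < T → D H Y L w' < T → D H Y L (w * w') < T := by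
      intro w w' hw hw' T h1 h2
      rcases (isCvx_D H Y L w).total (isCvx_D H Y L w') with h3 | h3
      · exact (D_mul H Y L hab hw hw' (isCvx_D H Y L w') h3 le_rfl).trans_lt h2
      · exact (D_mul H Y L hab hw hw' (isCvx_D H Y L w) le_rfl h3).trans_lt h1
    have hpow : ∀ w : G ⧸ L, w ∈ H.map (QuotientGroup.mk' L) → ∀ T : Subgroup G, D H Y L w < T →
        ∀ m : ℕ, D H Y L (w ^ m) < T := by
      intro w hw T h1 m
      induction m with
      | zero =>
        rw [pow_zero, D_one H Y L hL]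
        exact lt_of_le_of_lt bot_le h1
      | succ m ih =>
        rw [pow_succ]
        exact hlt _ _ (Subgroup.pow_mem _ hw m) hw T ih h1
    have key : ∀ a : G ⧸ L → G ⧸ L, Nu a → ∃ g : G, ∃ m : ℕ, ∃ e ∈ H.map (QuotientGroup.mk' L),
        a v = (QuotientGroup.mk' L g * v * (QuotientGroup.mk' L g)⁻¹) ^ (m + 1) * e ∧
        D H Y L e < D H Y L (QuotientGroup.mk' L g * v * (QuotientGroup.mk' L g)⁻¹) := by
      intro a ha
      induction ha with
      | base q =>
        obtain ⟨g, rfl⟩ := QuotientGroup.mk'_surjective L q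
        refine ⟨g, 0, 1, Subgroup.one_mem _, by simp, ?_⟩
        rw [D_one H Y L hL, bot_lt_iff_ne_bot]
        refine D_ne H Y L hL (hBconj g) ?_
        intro h1
        apply hv1
        exact (MulAut.conj (QuotientGroup.mk' L g)).injective (by simpa using h1)
      | add a b _ _ iha ihb =>
        obtain ⟨g1, m1, e1, he1, ea, hd1⟩ := iha
        obtain ⟨g2, m2, e2, he2, eb, hd2⟩ := ihb
        set t1 := QuotientGroup.mk' L g1 * v * (QuotientGroup.mk' L g1)⁻¹ with ht1
        set t2 := QuotientGroup.mk' L g2 * v * (QuotientGroup.mk' L g2)⁻¹ with ht2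
        have hB1 : t1 ∈ H.map (QuotientGroup.mk' L) := hBconj g1
        have hB2 : t2 ∈ H.map (QuotientGroup.mk' L) := hBconj g2
        have hp1 : t1 ^ (m1 + 1) ∈ H.map (QuotientGroup.mk' L) := Subgroup.pow_mem _ hB1 _
        have hp2 : t2 ^ (m2 + 1) ∈ H.map (QuotientGroup.mk' L) := Subgroup.pow_mem _ hB2 _
        have hD1 : D H Y L t1 = cj g1 E := D_conj H Y L g1 v
        have hD2 : D H Y L t2 = cj g2 E := D_conj H Y L g2 v
        have h33 : cj g1 E < cj g2 E ∨ cj g1 E = cj g2 E ∨ cj g2 E < cj g1 E := by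
          rcases htot g1 g2 with h3 | h3
          · rcases h3.lt_or_eq with h4 | h4
            · exact Or.inl h4
            · exact Or.inr (Or.inl h4)
          · rcases h3.lt_or_eq with h4 | h4
            · exact Or.inr (Or.inr h4)
            · exact Or.inr (Or.inl h4.symm)
        rcases h33 with h3 | h3 | h3
        · -- the second one is larger
          refine ⟨g2, m2, e2 * (t1 ^ (m1 + 1) * e1), Subgroup.mul_mem _ he2
            (Subgroup.mul_mem _ hp1 he1), ?_, ?_⟩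
          · show a v * b v = _
            rw [ea, eb, hab _ (Subgroup.mul_mem _ hp1 he1) _ (Subgroup.mul_mem _ hp2 he2), ← ht2]
            group
          · have h4 : D H Y L t1 < D H Y L t2 := by rw [hD1, hD2]; exact h3
            exact hlt _ _ he2 (Subgroup.mul_mem _ hp1 he1) _ hd2
              (hlt _ _ hp1 he1 _ (hpow _ hB1 _ h4 _) (hd1.trans h4))
        · -- equal
          have h4 : g2⁻¹ * g1 ∈ Γ := by
            show cj (g2⁻¹ * g1) E = E
            rw [← cj_cj, h3, cj_cj, inv_mul_cancel, cj_one]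
          rw [h] at h4
          have h5 : t1 = t2 := by
            have h6 := hHfix _ h4
            rw [map_mul, map_inv] at h6
            rw [ht1, ht2]
            calc QuotientGroup.mk' L g1 * v * (QuotientGroup.mk' L g1)⁻¹
                = QuotientGroup.mk' L g2 * ((QuotientGroup.mk' L g2)⁻¹ * QuotientGroup.mk' L g1 * v *
                  ((QuotientGroup.mk' L g2)⁻¹ * QuotientGroup.mk' L g1)⁻¹) *
                  (QuotientGroup.mk' L g2)⁻¹ := by group
              _ = _ := by rw [h6]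
          refine ⟨g2, m1 + 1 + m2, e1 * e2, Subgroup.mul_mem _ he1 he2, ?_, ?_⟩
          · show a v * b v = _
            rw [ea, eb, ← ht2, h5]
            calc t2 ^ (m1 + 1) * e1 * (t2 ^ (m2 + 1) * e2)
                = t2 ^ (m1 + 1) * (e1 * t2 ^ (m2 + 1)) * e2 := by group
              _ = t2 ^ (m1 + 1) * (t2 ^ (m2 + 1) * e1) * e2 := by rw [hab _ he1 _ hp2]
              _ = t2 ^ (m1 + 1) * t2 ^ (m2 + 1) * (e1 * e2) := by group
              _ = t2 ^ (m1 + 1 + m2 + 1) * (e1 * e2) := by rw [← pow_add]; rfl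
          · rw [← ht2]
            rw [h5] at hd1
            exact hlt _ _ he1 he2 _ hd1 hd2
        · refine ⟨g1, m1, e1 * (t2 ^ (m2 + 1) * e2), Subgroup.mul_mem _ he1
            (Subgroup.mul_mem _ hp2 he2), ?_, ?_⟩
          · show a v * b v = _
            rw [ea, eb, ← ht1]
            group
          · have h4 : D H Y L t2 < D H Y L t1 := by rw [hD1, hD2]; exact h3
            exact hlt _ _ he1 (Subgroup.mul_mem _ hp2 he2) _ hd1
              (hlt _ _ hp2 he2 _ (hpow _ hB2 _ h4 _) (hd2.trans h4))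
    obtain ⟨a, ha, ea⟩ := hrel x hx
    obtain ⟨g, m, e, he, e1, hd⟩ := key a ha
    rw [ea] at e1
    set t := QuotientGroup.mk' L g * v * (QuotientGroup.mk' L g)⁻¹ with ht
    have h2 : t ^ (m + 1) = e⁻¹ := (inv_eq_of_mul_eq_one_left e1.symm).symm
    have h3 := D_pow H Y L t m
    rw [h2] at h3
    exact lt_irrefl _ (hd.trans_le (h3.trans (D_inv H Y L e)))
  · -- the case `Γ = ⊤`
    have hEn : E.Normal := by
      refine ⟨fun a ha g => ?_⟩
      have h1 : g⁻¹ ∈ Γ := by rw [h]; trivial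
      have h2 : cj g⁻¹ E = E := h1
      rw [← h2, mem_cj] at ha
      simpa using ha
    rcases hU E hEn ⟨_, relCone_cvx hEc hEn⟩ with h1 | h1 | h1
    · exact hEne h1
    · exact hxE (h1 ▸ hx)
    · exact hxE (h1 ▸ Subgroup.mem_top x)

end main

end Pool.Agent.V11279.OC
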