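import Pool.Agent.V11279.OC.Zorn

/-! The main lemma. -/

set_option autoImplicit false
set_option linter.unusedSectionVars false

namespace Pool.Agent.V11279.OC

open scoped commutatorElement

universe u

section cone

variable {G : Type u} [Group G]

lemma RelCone.comap {G' : Type u} [Group G'] (f : G →* G') {N : Subgroup G'} {P : Set G'}
    (hP : RelCone N P) : RelCone (N.comap f) (f ⁻¹' P) where
  mul a ha b hb := by
    show f (a * b) ∈ P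
    rw [map_mul]; exact hP.mul _ ha _ hb
  conj a ha g := by
    show f (g * a * g⁻¹) ∈ P
    rw [map_mul, map_mul, map_inv]; exact hP.conj _ ha _
  tri a := by
    rcases hP.tri (f a) with h | h | h
    · exact Or.inl h
    · exact Or.inr (Or.inl h)
    · right; right
      show f a⁻¹ ∈ P
      rw [map_inv]; exact h
  asym a ha h := by
    have : f a⁻¹ ∈ P := h
    rw [map_inv] at this
    exact hP.asym _ ha this
  nmem a ha h := hP.nmem _ ha h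

lemma RelCone.map {K L : Subgroup G} [L.Normal] (hLK : L ≤ K) {P : Set G} (hP : RelCone K P) :
    RelCone (K.map (QuotientGroup.mk' L)) ((QuotientGroup.mk' L) '' P) := by
  have hker : ∀ a b : G, (QuotientGroup.mk' L) a = (QuotientGroup.mk' L) b → a⁻¹ * b ∈ K := by
    intro a b h
    exact hLK (QuotientGroup.eq.1 h)
  refine ⟨?_, ?_, ?_, ?_, ?_⟩
  · rintro _ ⟨a, ha, rfl⟩ _ ⟨b, hb, rfl⟩
    exact ⟨a * b, hP.mul _ ha _ hb, map_mul _ _ _⟩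
  · rintro _ ⟨a, ha, rfl⟩ g
    obtain ⟨g, rfl⟩ := QuotientGroup.mk'_surjective L g
    exact ⟨g * a * g⁻¹, hP.conj _ ha g, by simp only [map_mul, map_inv]⟩
  · intro x
    obtain ⟨x, rfl⟩ := QuotientGroup.mk'_surjective L x
    rcases hP.tri x with h | h | h
    · left; exact ⟨x, h, rfl⟩
    · right; left; exact ⟨x, h, rfl⟩
    · right; right; exact ⟨x⁻¹, h, map_inv _ _⟩
  · rintro _ ⟨a, ha, rfl⟩ ⟨b, hb, hab⟩
    have h1 : (QuotientGroup.mk' L) 1 = (QuotientGroup.mk' L) (a * b) := by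
      rw [map_mul, hab, mul_inv_cancel, map_one]
    have h2 := hker _ _ h1
    rw [inv_one, one_mul] at h2
    exact hP.nmem _ (hP.mul _ ha _ hb) h2
  · rintro _ ⟨a, ha, rfl⟩ ⟨b, hb, hab⟩
    have h2 := hker _ _ hab
    exact hP.nmem _ ha ((K.mul_mem_cancel_left (K.inv_mem hb)).1 h2)

end cone

section abq

variable {G : Type u} [Group G] {H L : Subgroup G} [H.Normal] [L.Normal]

/-- positive relations modulo `L` -/
theorem pos_rel (hLH : L ≤ H) (hHH : ∀ h ∈ H, ∀ k ∈ H, ⁅h, k⁆ ∈ L) (hG : ∀ g k : G, ⁅g, k⁆ ∈ H)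
    (PH : Set G) (hPH : RelCone H PH) : ∃ K : Subgroup G, K.Normal ∧ L ≤ K ∧ K ≤ H ∧
      (∃ P, RelCone K P) ∧ ∀ x ∈ K, ∃ a : G ⧸ L → G ⧸ L, Nu a ∧ a (QuotientGroup.mk' L x) = 1 := by
  haveI hB : (H.map (QuotientGroup.mk' L)).Normal :=
    Subgroup.Normal.map inferInstance _ (QuotientGroup.mk'_surjective L)
  have hab : ∀ a ∈ H.map (QuotientGroup.mk' L), ∀ b ∈ H.map (QuotientGroup.mk' L), a * b = b * a := by
    rintro _ ⟨a, ha, rfl⟩ _ ⟨b, hb, rfl⟩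
    rw [← map_mul, ← map_mul]
    refine (QuotientGroup.eq.2 ?_)
    have := hHH _ (H.inv_mem hb) _ (H.inv_mem ha)
    rw [commutatorElement_def] at this
    rwa [show (a * b)⁻¹ * (b * a) = b⁻¹ * a⁻¹ * b⁻¹⁻¹ * a⁻¹⁻¹ by group]
  have hQ : ∀ g k : G ⧸ L, ⁅g, k⁆ ∈ H.map (QuotientGroup.mk' L) := by
    intro g k
    obtain ⟨g, rfl⟩ := QuotientGroup.mk'_surjective L g
    obtain ⟨k, rfl⟩ := QuotientGroup.mk'_surjective L k
    rw [← map_commutatorElement]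
    exact ⟨_, hG g k, rfl⟩
  obtain ⟨K, hK, hKB, ⟨P, hP⟩, hKa⟩ := exists_cone hab hQ _ (hPH.map hLH)
  refine ⟨K.comap (QuotientGroup.mk' L), hK.comap _, ?_, ?_, ⟨_, hP.comap _⟩, fun x hx => hKa _ hx⟩
  · intro x hx
    rw [Subgroup.mem_comap]
    have : (QuotientGroup.mk' L) x = 1 := (QuotientGroup.eq_one_iff x).2 hx
    rw [this]; exact K.one_mem
  · intro x hx
    obtain ⟨y, hy, e⟩ := hKB hx
    have h1 : y⁻¹ * x ∈ H := hLH (QuotientGroup.eq.1 e)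
    exact (H.mul_mem_cancel_left (H.inv_mem hy)).1 h1

end abq

section main

variable {G : Type u} [Group G] [LinearOrder G] [MulLeftMono G] [MulRightMono G]
  (H Y L : Subgroup G) [hHn : H.Normal] [hYn : Y.Normal] [hLn : L.Normal]

/-- the convex hull of the commutators of `Y` with the representatives in `H` of a class modulo `L` -/
def D (w : G ⧸ L) : Subgroup G :=
  cvx {d | ∃ z ∈ H, QuotientGroup.mk' L z = w ∧ ∃ y ∈ Y, d = ⁅z, y⁆}

lemma isCvx_D (w : G ⧸ L) : IsCvx (D H Y L w) := isCvx_cvx _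

lemma mem_D {z y : G} (hz : z ∈ H) (hy : y ∈ Y) : ⁅z, y⁆ ∈ D H Y L (QuotientGroup.mk' L z) :=
  subset_cvx _ ⟨z, hz, rfl, y, hy, rfl⟩

lemma D_conj_le (g : G) (w : G ⧸ L) :
    D H Y L (QuotientGroup.mk' L g * w * (QuotientGroup.mk' L g)⁻¹) ≤ cj g (D H Y L w) := by
  refine cvx_le ((isCvx_D H Y L w).cj g) ?_
  rintro _ ⟨z, hz, e, y, hy, rfl⟩
  rw [mem_cj]
  have h1 : g⁻¹ * ⁅z, y⁆ * g = ⁅g⁻¹ * z * g⁻¹⁻¹, g⁻¹ * y * g⁻¹⁻¹⁆ := by
    simp only [commutatorElement_def]; group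
  rw [h1]
  have h2 : (QuotientGroup.mk' L) (g⁻¹ * z * g⁻¹⁻¹) = w := by
    rw [map_mul, map_mul, e, map_inv]; group
  have h3 := mem_D H Y L (hHn.conj_mem z hz g⁻¹) (hYn.conj_mem y hy g⁻¹)
  rwa [h2] at h3

lemma D_conj (g : G) (w : G ⧸ L) :
    D H Y L (QuotientGroup.mk' L g * w * (QuotientGroup.mk' L g)⁻¹) = cj g (D H Y L w) := by
  refine le_antisymm (D_conj_le H Y L g w) ?_
  have h1 := D_conj_le H Y L g⁻¹ (QuotientGroup.mk' L g * w * (QuotientGroup.mk' L g)⁻¹)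
  have h2 : QuotientGroup.mk' L g⁻¹ * (QuotientGroup.mk' L g * w * (QuotientGroup.mk' L g)⁻¹) *
      (QuotientGroup.mk' L g⁻¹)⁻¹ = w := by
    rw [map_inv]; group
  rw [h2] at h1
  have h3 := cj_mono g h1
  rwa [cj_cj, mul_inv_cancel, cj_one] at h3

lemma D_pow (w : G ⧸ L) (n : ℕ) : D H Y L w ≤ D H Y L (w ^ (n + 1)) := by
  refine cvx_le (isCvx_D H Y L _) ?_
  rintro _ ⟨z, hz, e, y, hy, rfl⟩
  refine (isCvx_D H Y L _).mem_of_mabs_le (comm_pow_mabs z y n) ?_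
  have := mem_D H Y L (H.pow_mem hz (n + 1)) hy
  rwa [map_pow, e] at this

lemma D_inv (w : G ⧸ L) : D H Y L w⁻¹ ≤ D H Y L w := by
  refine cvx_le (isCvx_D H Y L _) ?_
  rintro _ ⟨z, hz, e, y, hy, rfl⟩
  have h1 := mem_D H Y L (H.inv_mem hz) (hYn.conj_mem y hy z)
  rw [map_inv, e, inv_inv] at h1
  have h2 : ⁅z, y⁆ = (⁅z⁻¹, z * y * z⁻¹⁆)⁻¹ := by
    simp only [commutatorElement_def]; group
  rw [h2]
  exact Subgroup.inv_mem _ h1

variable (hL : ∀ z, z ∈ L ↔ z ∈ H ∧ ∀ y ∈ Y, ⁅z, y⁆ = 1)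
  (hab : ∀ a ∈ H.map (QuotientGroup.mk' L), ∀ b ∈ H.map (QuotientGroup.mk' L), a * b = b * a)

include hab in
lemma D_mul {w w' : G ⧸ L} (hw : w ∈ H.map (QuotientGroup.mk' L))
    (hw' : w' ∈ H.map (QuotientGroup.mk' L)) {C : Subgroup G} (hC : IsCvx C) (h1 : D H Y L w ≤ C)
    (h2 : D H Y L w' ≤ C) : D H Y L (w * w') ≤ C := by
  refine cvx_le hC ?_
  rintro _ ⟨z, hz, e, y, hy, rfl⟩
  obtain ⟨z1, hz1, e1⟩ := hw
  have hz2 : z1⁻¹ * z ∈ H := H.mul_mem (H.inv_mem hz1) hz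
  have hz3 : z1 * (z1⁻¹ * z) * z1⁻¹ ∈ H := hHn.conj_mem _ hz2 z1
  have e3 : QuotientGroup.mk' L (z1 * (z1⁻¹ * z) * z1⁻¹) = w' := by
    have : w * w' = w' * w := hab _ ⟨z1, hz1, e1⟩ _ hw'
    simp only [map_mul, map_inv, e, e1]
    rw [this]; group
  have h3 : ⁅z, y⁆ = ⁅z1 * (z1⁻¹ * z) * z1⁻¹, z1 * y * z1⁻¹⁆ * ⁅z1, y⁆ := by
    simp only [commutatorElement_def]; group
  rw [h3]
  refine C.mul_mem (h2 ?_) (h1 ?_)
  · have := mem_D H Y L hz3 (hYn.conj_mem y hy z1)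
    rwa [e3] at this
  · have := mem_D H Y L hz1 hy
    rwa [e1] at this

include hL

lemma D_one : D H Y L 1 = ⊥ := by
  rw [eq_bot_iff]
  refine cvx_le isCvx_bot ?_
  rintro _ ⟨z, hz, e, y, hy, rfl⟩
  have h1 : z ∈ L := (QuotientGroup.eq_one_iff z).1 e
  rw [((hL z).1 h1).2 y hy]
  exact Subgroup.one_mem _

lemma D_ne {w : G ⧸ L} (hw : w ∈ H.map (QuotientGroup.mk' L)) (h1 : w ≠ 1) : D H Y L w ≠ ⊥ := by
  obtain ⟨z, hz, rfl⟩ := hw
  intro h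
  apply h1
  refine (QuotientGroup.eq_one_iff z).2 ((hL z).2 ⟨hz, fun y hy => ?_⟩)
  have := mem_D H Y L hz hy
  rw [h, Subgroup.mem_bot] at this
  exact this

lemma D_small {x : G} (hx : x ∈ H) (hx1 : 1 < x) (hc : ∀ y ∈ Y, Commute ⁅y, x⁆ y) :
    D H Y L (QuotientGroup.mk' L x) ≤ small x := by
  refine cvx_le (isCvx_small x) ?_
  rintro _ ⟨z, hz, e, y, hy, rfl⟩
  have h1 : x⁻¹ * z ∈ L := QuotientGroup.eq.1 e.symm
  have h2 := ((hL _).1 h1).2 y hy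
  have h3 : ⁅z, y⁆ = x * ⁅x⁻¹ * z, y⁆ * x⁻¹ * ⁅x, y⁆ := by
    simp only [commutatorElement_def]; group
  rw [h3, h2, mul_one, mul_inv_cancel, one_mul]
  have h4 : ⁅x, y⁆ = ⁅y, x⁆⁻¹ := (commutatorElement_inv y x).symm
  rw [h4]
  exact Subgroup.inv_mem _ (comm_small hx1 (hc y hy))

end main

end Pool.Agent.V11279.OC
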