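import Mathlib

/-! Convex subgroups of bi-ordered groups. -/

set_option autoImplicit false
set_option linter.unusedSectionVars false

namespace Pool.Agent.V11279.OC

open scoped commutatorElement

universe u

/-- `P` is the set of elements that are positive modulo the subgroup `K`. -/
structure RelCone {G : Type u} [Group G] (K : Subgroup G) (P : Set G) : Prop where
  mul : ∀ a ∈ P, ∀ b ∈ P, a * b ∈ P
  conj : ∀ a ∈ P, ∀ g : G, g * a * g⁻¹ ∈ P
  tri : ∀ a : G, a ∈ K ∨ a ∈ P ∨ a⁻¹ ∈ P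
  asym : ∀ a ∈ P, a⁻¹ ∉ P
  nmem : ∀ a ∈ P, a ∉ K

section ord

variable {G : Type u} [Group G] [LinearOrder G] [MulLeftMono G] [MulRightMono G]

lemma conj_le {a b : G} (g : G) (h : a ≤ b) : g * a * g⁻¹ ≤ g * b * g⁻¹ :=
  mul_le_mul_left (mul_le_mul_right h g) g⁻¹

lemma conj_lt {a b : G} (g : G) (h : a < b) : g * a * g⁻¹ < g * b * g⁻¹ := by
  refine lt_of_le_of_ne (conj_le g h.le) ?_
  intro e
  exact h.ne (by simpa using e)

lemma one_lt_conj {a : G} (g : G) (h : 1 < a) : 1 < g * a * g⁻¹ := by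
  have := conj_lt g h
  simpa using this

lemma one_le_conj {a : G} (g : G) (h : 1 ≤ a) : 1 ≤ g * a * g⁻¹ := by
  have := conj_le g h
  simpa using this

lemma mabs_conj (g a : G) : |g * a * g⁻¹|ₘ = g * |a|ₘ * g⁻¹ := by
  rcases le_total 1 a with h | h
  · rw [mabs_of_one_le h, mabs_of_one_le (one_le_conj g h)]
  · have h1 : g * a * g⁻¹ ≤ 1 := by
      have := conj_le g h
      simpa using this
    rw [mabs_of_le_one h, mabs_of_le_one h1]
    group

lemma conj_pow (g a : G) (n : ℕ) : (g * a * g⁻¹) ^ n = g * a ^ n * g⁻¹ := by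
  induction n with
  | zero => simp
  | succ n ih => rw [pow_succ, pow_succ, ih]; group

/-- convex subgroups -/
def IsCvx (C : Subgroup G) : Prop := ∀ a b : G, 1 ≤ a → a ≤ b → b ∈ C → a ∈ C

lemma mabs_mem {C : Subgroup G} {a : G} : |a|ₘ ∈ C ↔ a ∈ C := by
  rcases le_total 1 a with h | h
  · rw [mabs_of_one_le h]
  · rw [mabs_of_le_one h]; exact C.inv_mem_iff

lemma IsCvx.mem_of_mabs_le {C : Subgroup G} (hC : IsCvx C) {a b : G} (h : |a|ₘ ≤ |b|ₘ) (hb : b ∈ C) :
    a ∈ C :=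
  mabs_mem.1 (hC _ _ (one_le_mabs a) h (mabs_mem.2 hb))

lemma IsCvx.total {C C' : Subgroup G} (h : IsCvx C) (h' : IsCvx C') : C ≤ C' ∨ C' ≤ C := by
  by_contra hcon
  push Not at hcon
  obtain ⟨h1, h2⟩ := hcon
  rw [SetLike.not_le_iff_exists] at h1 h2
  obtain ⟨x, hx, hx'⟩ := h1
  obtain ⟨y, hy, hy'⟩ := h2
  rcases le_total |x|ₘ |y|ₘ with h3 | h3
  · exact hx' (h'.mem_of_mabs_le h3 hy)
  · exact hy' (h.mem_of_mabs_le h3 hx)

/-- convex hull -/
def cvx (S : Set G) : Subgroup G := sInf {C | IsCvx C ∧ S ⊆ C}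

lemma isCvx_sInf {s : Set (Subgroup G)} (h : ∀ C ∈ s, IsCvx C) : IsCvx (sInf s) := by
  intro a b h1 h2 h3
  rw [Subgroup.mem_sInf] at *
  exact fun C hC => h C hC a b h1 h2 (h3 C hC)

lemma isCvx_iInf {ι : Sort*} {s : ι → Subgroup G} (h : ∀ i, IsCvx (s i)) : IsCvx (⨅ i, s i) := by
  intro a b h1 h2 h3
  rw [Subgroup.mem_iInf] at *
  exact fun i => h i a b h1 h2 (h3 i)

lemma isCvx_cvx (S : Set G) : IsCvx (cvx S) := isCvx_sInf fun _ hC => hC.1

lemma subset_cvx (S : Set G) {a : G} (h : a ∈ S) : a ∈ cvx S := by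
  unfold cvx
  rw [Subgroup.mem_sInf]
  exact fun C hC => hC.2 h

lemma cvx_le {S : Set G} {C : Subgroup G} (hC : IsCvx C) (h : ∀ a ∈ S, a ∈ C) : cvx S ≤ C :=
  sInf_le ⟨hC, h⟩

lemma isCvx_bot : IsCvx (⊥ : Subgroup G) := by
  intro a b h1 h2 h3
  rw [Subgroup.mem_bot] at *
  subst h3
  exact le_antisymm h2 h1

/-- conjugate of a subgroup -/
def cj (g : G) (C : Subgroup G) : Subgroup G where
  carrier := {x | g⁻¹ * x * g ∈ C}
  one_mem' := by simp
  mul_mem' := by
    intro a b ha hb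
    have := C.mul_mem ha hb
    show g⁻¹ * (a * b) * g ∈ C
    rwa [show g⁻¹ * (a * b) * g = g⁻¹ * a * g * (g⁻¹ * b * g) by group]
  inv_mem' := by
    intro a ha
    have := C.inv_mem ha
    show g⁻¹ * a⁻¹ * g ∈ C
    rwa [show g⁻¹ * a⁻¹ * g = (g⁻¹ * a * g)⁻¹ by group]

lemma mem_cj {g x : G} {C : Subgroup G} : x ∈ cj g C ↔ g⁻¹ * x * g ∈ C := Iff.rfl

lemma cj_mono (g : G) {C C' : Subgroup G} (h : C ≤ C') : cj g C ≤ cj g C' := fun _ hx => h hx

lemma cj_cj (g k : G) (C : Subgroup G) : cj g (cj k C) = cj (g * k) C := by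
  ext x
  simp only [mem_cj]
  rw [show k⁻¹ * (g⁻¹ * x * g) * k = (g * k)⁻¹ * x * (g * k) by group]

lemma cj_one (C : Subgroup G) : cj 1 C = C := by
  ext x; simp [mem_cj]

lemma cj_injective (g : G) {C C' : Subgroup G} (h : cj g C = cj g C') : C = C' := by
  have := congrArg (cj g⁻¹) h
  rwa [cj_cj, cj_cj, inv_mul_cancel, cj_one, cj_one] at this

lemma cj_strict (g : G) {C C' : Subgroup G} (h : C < C') : cj g C < cj g C' :=
  lt_of_le_of_ne (cj_mono g h.le) fun e => h.ne (cj_injective g e)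

lemma IsCvx.cj {C : Subgroup G} (h : IsCvx C) (g : G) : IsCvx (cj g C) := by
  intro a b h1 h2 h3
  rw [mem_cj] at *
  have e1 := conj_le g⁻¹ h1
  have e2 := conj_le g⁻¹ h2
  simp only [inv_inv, mul_one, inv_mul_cancel] at e1 e2
  exact h _ _ e1 e2 h3

/-- the elements infinitely small compared with `x` -/
def small (x : G) : Subgroup G where
  carrier := {d | d = 1 ∨ ∀ n : ℕ, |d|ₘ ^ n < x}
  one_mem' := Or.inl rfl
  mul_mem' := by
    intro a b ha hb
    rcases ha with rfl | ha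
    · simpa using hb
    rcases hb with rfl | hb
    · right; simpa using ha
    right
    intro n
    set e := max |a|ₘ |b|ₘ with he
    have h1 : |a * b|ₘ ≤ e ^ 2 := by
      rw [mabs_le', pow_two]
      constructor
      · exact mul_le_mul' ((le_mabs_self a).trans (le_max_left _ _))
          ((le_mabs_self b).trans (le_max_right _ _))
      · rw [mul_inv_rev]
        exact mul_le_mul' ((inv_le_mabs b).trans (le_max_right _ _))
          ((inv_le_mabs a).trans (le_max_left _ _))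
    have h2 : |a * b|ₘ ^ n ≤ (e ^ 2) ^ n := pow_le_pow_left' h1 n
    have h3 : (e ^ 2) ^ n < x := by
      rw [← pow_mul]
      rcases max_choice |a|ₘ |b|ₘ with h | h
      · rw [he, h]; exact ha _
      · rw [he, h]; exact hb _
    exact h2.trans_lt h3
  inv_mem' := by
    intro a ha
    rcases ha with rfl | ha
    · left; simp
    · right; intro n; rw [mabs_inv]; exact ha n

lemma mem_small {x d : G} : d ∈ small x ↔ d = 1 ∨ ∀ n : ℕ, |d|ₘ ^ n < x := Iff.rfl

lemma isCvx_small (x : G) : IsCvx (small x) := by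
  intro a b h1 h2 h3
  rcases h3 with rfl | h3
  · left; exact le_antisymm h2 h1
  · right
    intro n
    refine lt_of_le_of_lt ?_ (h3 n)
    rw [mabs_of_one_le h1]
    exact pow_le_pow_left' (h2.trans (le_mabs_self b)) n

lemma not_mem_small {x : G} (h : x ≠ 1) : x ∉ small |x|ₘ := by
  rintro (h1 | h1)
  · exact h h1
  · have := h1 1
    rw [pow_one] at this
    exact lt_irrefl _ this

lemma not_mem_small' {x : G} (h : 1 < x) : x ∉ small x := by
  have := not_mem_small h.ne'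
  rwa [mabs_of_one_le h.le] at this

/-- a commutator that commutes with its first entry is infinitely small -/
lemma comm_small {x y : G} (hx : 1 < x) (h : Commute ⁅y, x⁆ y) : ⁅y, x⁆ ∈ small x := by
  set c := ⁅y, x⁆ with hc
  have h1 : y * x * y⁻¹ = c * x := by rw [hc, commutatorElement_def]; group
  have h2 : ∀ n : ℕ, y ^ n * x * (y ^ n)⁻¹ = c ^ n * x := by
    intro n
    induction n with
    | zero => simp
    | succ n ih =>
      have h3 : y * c ^ n = c ^ n * y := ((h.pow_left n).eq).symm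
      calc y ^ (n + 1) * x * (y ^ (n + 1))⁻¹ = y * (y ^ n * x * (y ^ n)⁻¹) * y⁻¹ := by
            rw [pow_succ']; group
        _ = y * c ^ n * x * y⁻¹ := by rw [ih]; group
        _ = c ^ n * (y * x * y⁻¹) := by rw [h3]; group
        _ = c ^ (n + 1) * x := by rw [h1, pow_succ]; group
  right
  intro n
  have h4 : 1 < c ^ n * x := by rw [← h2 n]; exact one_lt_conj _ hx
  have h5 : 1 < (c ^ n)⁻¹ * x := by
    have h6 : (y ^ n)⁻¹ * x * (y ^ n)⁻¹⁻¹ = (c ^ n)⁻¹ * x := by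
      have h7 : y ^ n * c ^ n = c ^ n * y ^ n := ((h.pow_pow n n).eq).symm
      have h8 := h2 n
      have h9 : x = (y ^ n)⁻¹ * (c ^ n * x) * y ^ n := by rw [← h8]; group
      have h10 : (y ^ n)⁻¹ * c ^ n = c ^ n * (y ^ n)⁻¹ := by
        rw [inv_mul_eq_iff_eq_mul, ← mul_assoc, h7, mul_inv_cancel_right]
      rw [inv_inv, eq_inv_mul_iff_mul_eq]
      calc c ^ n * ((y ^ n)⁻¹ * x * y ^ n) = (c ^ n * (y ^ n)⁻¹) * x * y ^ n := by group
        _ = (y ^ n)⁻¹ * (c ^ n * x) * y ^ n := by rw [← h10]; group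
        _ = x := h9.symm
    rw [← h6]
    exact one_lt_conj _ hx
  have h6 : (c ^ n)⁻¹ < x := by
    have := mul_lt_mul_right h4 (c ^ n)⁻¹
    simpa using this
  have h7 : c ^ n < x := by
    have := mul_lt_mul_right h5 (c ^ n)
    simpa using this
  rcases le_total 1 c with h8 | h8
  · rw [mabs_of_one_le h8]; exact h7
  · rw [mabs_of_le_one h8, inv_pow]; exact h6

lemma conj_pow_ge {x y : G} (h : y ≤ x * y * x⁻¹) (n : ℕ) :
    x * y * x⁻¹ ≤ x ^ (n + 1) * y * (x ^ (n + 1))⁻¹ := by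
  induction n with
  | zero => simp
  | succ n ih =>
    have h1 := conj_le x ih
    have h2 := conj_le x h
    refine h2.trans (h1.trans (le_of_eq ?_))
    rw [pow_succ' x (n + 1)]; group

lemma conj_pow_le {x y : G} (h : x * y * x⁻¹ ≤ y) (n : ℕ) :
    x ^ (n + 1) * y * (x ^ (n + 1))⁻¹ ≤ x * y * x⁻¹ := by
  induction n with
  | zero => simp
  | succ n ih =>
    have h1 := conj_le x ih
    have h2 := conj_le x h
    refine (le_of_eq ?_).trans (h1.trans h2)
    rw [pow_succ' x (n + 1)]; group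

lemma comm_pow_mabs (x y : G) (n : ℕ) : |⁅x, y⁆|ₘ ≤ |⁅x ^ (n + 1), y⁆|ₘ := by
  rw [commutatorElement_def, commutatorElement_def]
  rcases le_total y (x * y * x⁻¹) with h | h
  · have h1 := conj_pow_ge h n
    have h2 : 1 ≤ x * y * x⁻¹ * y⁻¹ := by
      have := mul_le_mul_left h y⁻¹
      simpa using this
    have h3 : x * y * x⁻¹ * y⁻¹ ≤ x ^ (n + 1) * y * (x ^ (n + 1))⁻¹ * y⁻¹ := mul_le_mul_left h1 y⁻¹
    rw [mabs_of_one_le h2, mabs_of_one_le (h2.trans h3)]
    exact h3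
  · have h1 := conj_pow_le h n
    have h2 : x * y * x⁻¹ * y⁻¹ ≤ 1 := by
      have := mul_le_mul_left h y⁻¹
      simpa using this
    have h3 : x ^ (n + 1) * y * (x ^ (n + 1))⁻¹ * y⁻¹ ≤ x * y * x⁻¹ * y⁻¹ := mul_le_mul_left h1 y⁻¹
    rw [mabs_of_le_one h2, mabs_of_le_one (h3.trans h2)]
    exact inv_le_inv_iff.2 h3

lemma comm_one_of_pow {x y : G} {n : ℕ} (h : ⁅x ^ (n + 1), y⁆ = 1) : ⁅x, y⁆ = 1 := by
  have h1 := comm_pow_mabs x y n
  rw [h, mabs_of_one_le (le_refl (1 : G)), mabs_le'] at h1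
  exact le_antisymm h1.1 (inv_le_one'.1 h1.2)

/-- convex normal subgroups have orderable quotient -/
lemma relCone_cvx {C : Subgroup G} (hC : IsCvx C) (hn : C.Normal) :
    RelCone C {g | 1 < g ∧ g ∉ C} where
  mul := by
    rintro a ⟨ha, ha'⟩ b ⟨hb, hb'⟩
    refine ⟨one_lt_mul' ha hb, fun hab => ha' ?_⟩
    exact hC a (a * b) ha.le (le_mul_of_one_le_right' hb.le) hab
  conj := by
    rintro a ⟨ha, ha'⟩ g
    refine ⟨one_lt_conj g ha, fun h => ha' ?_⟩
    have := hn.conj_mem _ h g⁻¹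
    rwa [show g⁻¹ * (g * a * g⁻¹) * g⁻¹⁻¹ = a by group] at this
  tri := by
    intro a
    by_cases ha : a ∈ C
    · exact Or.inl ha
    · right
      rcases lt_trichotomy 1 a with h | h | h
      · left; exact ⟨h, ha⟩
      · exact absurd (h ▸ C.one_mem) ha
      · right; exact ⟨one_lt_inv'.2 h, fun h' => ha (by simpa using C.inv_mem h')⟩
  asym := by
    rintro a ⟨ha, -⟩ ⟨hb, -⟩
    exact absurd (one_lt_inv'.1 hb) (not_lt.2 ha.le)
  nmem := fun a ha => ha.2

end ord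

end Pool.Agent.V11279.OC
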