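import Pool.Agent.V11279.OC.ML

/-! Soluble bi-ordered groups of derived length three with few normal relatively convex subgroups. -/

set_option autoImplicit false
set_option linter.unusedSectionVars false

namespace Pool.Agent.V11279.OC

open scoped commutatorElement

universe u

section small

variable {G : Type u} [Group G] [LinearOrder G] [MulLeftMono G] [MulRightMono G]
  {H : Subgroup G} [hHn : H.Normal]

lemma one_lt_mabs {x : G} (h : x ≠ 1) : 1 < |x|ₘ := by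
  refine lt_of_le_of_ne (one_le_mabs x) ?_
  intro e
  have h1 : |x|ₘ ≤ 1 := e.symm.le
  rw [mabs_le'] at h1
  exact h (le_antisymm h1.1 (inv_le_one'.1 h1.2))

lemma small_conj {x z g : G} (h : x ∈ small z) : g * x * g⁻¹ ∈ small (g * z * g⁻¹) := by
  rcases h with rfl | h
  · left; group
  · right
    intro n
    rw [mabs_conj, conj_pow]
    exact conj_lt g (h n)

lemma small_mono {z z' : G} (h : z ≤ z') : small z ≤ small z' := by
  intro x hx
  rcases hx with rfl | hx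
  · exact Or.inl rfl
  · exact Or.inr fun n => (hx n).trans_le h

/-- conjugates become arbitrarily small -/
lemma exists_small (hU : ∀ K : Subgroup G, K.Normal → (∃ P, RelCone K P) → K = ⊥ ∨ K = H ∨ K = ⊤)
    {c x : G} (hc : c ∈ H) (hx : x ∈ H) (hc1 : c ≠ 1) (hx1 : 1 < x) (hcx : c ∈ small x)
    {h : G} (hh : h ∈ H) (h1 : h ≠ 1) {z : G} (hz : 1 < z) : ∃ g : G, g * h * g⁻¹ ∈ small z := by
  by_contra hcon
  push Not at hcon
  set E : Subgroup G := ⨅ g : G, cvx {g * h * g⁻¹} with hE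
  have hEc : IsCvx E := isCvx_iInf fun g => isCvx_cvx _
  have hzE : z ∈ E := by
    rw [hE, Subgroup.mem_iInf]
    intro g
    have h2 := hcon g
    rw [mem_small] at h2
    push Not at h2
    obtain ⟨h3, n, h4⟩ := h2
    have h5 : g * h * g⁻¹ ∈ cvx {g * h * g⁻¹} := subset_cvx _ (Set.mem_singleton _)
    have h6 : |g * h * g⁻¹|ₘ ^ n ∈ cvx {g * h * g⁻¹} := Subgroup.pow_mem _ (mabs_mem.2 h5) n
    exact isCvx_cvx _ z _ hz.le h4 h6
  have hEn : E.Normal := by
    refine ⟨fun a ha k => ?_⟩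
    rw [hE, Subgroup.mem_iInf] at *
    intro g
    have h2 : cvx {k⁻¹ * g * h * (k⁻¹ * g)⁻¹} ≤ cj k⁻¹ (cvx {g * h * g⁻¹}) := by
      refine cvx_le ((isCvx_cvx _).cj _) ?_
      intro b hb
      rw [Set.mem_singleton_iff] at hb
      rw [mem_cj, hb]
      have h3 : k⁻¹⁻¹ * (k⁻¹ * g * h * (k⁻¹ * g)⁻¹) * k⁻¹ = g * h * g⁻¹ := by group
      rw [h3]
      exact subset_cvx _ (Set.mem_singleton _)
    have h4 := h2 (ha (k⁻¹ * g))
    rw [mem_cj] at h4
    simpa using h4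
  have hxE : x ∈ E := by
    rcases hU E hEn ⟨_, relCone_cvx hEc hEn⟩ with h2 | h2 | h2
    · rw [h2, Subgroup.mem_bot] at hzE
      exact absurd hzE hz.ne'
    · rw [h2]; exact hx
    · rw [h2]; trivial
  -- the elements small with respect to all conjugates
  set W : Subgroup G := ⨅ g : G, small |g * h * g⁻¹|ₘ with hW
  have hWc : IsCvx W := isCvx_iInf fun g => isCvx_small _
  have hWn : W.Normal := by
    refine ⟨fun a ha k => ?_⟩
    rw [hW, Subgroup.mem_iInf] at *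
    intro g
    have h2 := small_conj (g := k) (ha (k⁻¹ * g))
    have h3 : k * |k⁻¹ * g * h * (k⁻¹ * g)⁻¹|ₘ * k⁻¹ = |g * h * g⁻¹|ₘ := by
      rw [← mabs_conj]
      congr 1
      group
    rwa [h3] at h2
  have hcW : c ∈ W := by
    rw [hW, Subgroup.mem_iInf]
    intro g
    by_contra h2
    rw [mem_small] at h2
    push Not at h2
    obtain ⟨h3, n, h4⟩ := h2
    have h5 : |g * h * g⁻¹|ₘ ∈ small x :=
      isCvx_small x _ _ (one_le_mabs _) h4 (Subgroup.pow_mem _ (mabs_mem.2 hcx) n)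
    have h6 : cvx {g * h * g⁻¹} ≤ small x := by
      refine cvx_le (isCvx_small x) ?_
      intro b hb
      rw [Set.mem_singleton_iff] at hb
      rw [hb]
      exact mabs_mem.1 h5
    have h7 : x ∈ cvx {g * h * g⁻¹} := by
      rw [hE, Subgroup.mem_iInf] at hxE
      exact hxE g
    exact not_mem_small' hx1 (h6 h7)
  have hhW : h ∉ W := by
    rw [hW, Subgroup.mem_iInf]
    intro h2
    have h3 := h2 1
    simp only [one_mul, inv_one, mul_one] at h3
    exact not_mem_small h1 h3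
  rcases hU W hWn ⟨_, relCone_cvx hWc hWn⟩ with h2 | h2 | h2
  · rw [h2, Subgroup.mem_bot] at hcW
    exact hc1 hcW
  · exact hhW (h2 ▸ hh)
  · exact hhW (h2 ▸ Subgroup.mem_top h)

/-- a double commutator that does not change if its first entry is conjugated is trivial -/
lemma double_comm (hU : ∀ K : Subgroup G, K.Normal → (∃ P, RelCone K P) → K = ⊥ ∨ K = H ∨ K = ⊤)
    {c x : G} (hc : c ∈ H) (hx : x ∈ H) (hc1 : c ≠ 1) (hx1 : 1 < x) (hcx : c ∈ small x)
    {h : G} (hh : h ∈ H) (m y z : G) (hz : ∀ g : G, ⁅⁅g * h * g⁻¹, m⁆, y⁆ = z) : z = 1 := by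
  by_contra hz1
  have h1 : h ≠ 1 := by
    rintro rfl
    apply hz1
    rw [← hz 1]
    simp [commutatorElement_def]
  have hz2 := one_lt_mabs hz1
  obtain ⟨f0, hf0, hmin⟩ := Finset.exists_min_image ({1, m, y, y * m} : Finset G)
    (fun f => f⁻¹ * |z|ₘ * f⁻¹⁻¹) ⟨1, by simp⟩
  obtain ⟨g, hg⟩ := exists_small hU hc hx hc1 hx1 hcx hh h1 (one_lt_conj f0⁻¹ hz2)
  have key : ∀ f ∈ ({1, m, y, y * m} : Finset G), f * (g * h * g⁻¹) * f⁻¹ ∈ small |z|ₘ := by
    intro f hf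
    have h2 := small_conj (g := f) (small_mono (hmin f hf) hg)
    have h3 : f * (f⁻¹ * |z|ₘ * f⁻¹⁻¹) * f⁻¹ = |z|ₘ := by group
    rwa [h3] at h2
  have k1 := key 1 (by simp)
  have k2 := key m (by simp)
  have k3 := key y (by simp)
  have k4 := key (y * m) (by simp)
  have h2 : z = (1 * (g * h * g⁻¹) * 1⁻¹) * (m * (g * h * g⁻¹) * m⁻¹)⁻¹ *
      ((y * (g * h * g⁻¹) * y⁻¹) * (y * m * (g * h * g⁻¹) * (y * m)⁻¹)⁻¹)⁻¹ := by
    rw [← hz g]
    simp only [commutatorElement_def]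
    group
  have h3 : z ∈ small |z|ₘ := by
    have h4 := Subgroup.mul_mem _ (Subgroup.mul_mem _ k1 (Subgroup.inv_mem _ k2))
      (Subgroup.inv_mem _ (Subgroup.mul_mem _ k3 (Subgroup.inv_mem _ k4)))
    rwa [← h2] at h4
  exact not_mem_small hz1 h3

/-- the commutators of `H` centralize `Y` if those of `H` and `G'` do -/
lemma comm_central {Y M : Subgroup G} [Y.Normal] (hGM : ∀ g k : G, ⁅g, k⁆ ∈ M) (hMH : M ≤ H)
    (hHM : ∀ h ∈ H, ∀ m ∈ M, ∀ y ∈ Y, ⁅⁅h, m⁆, y⁆ = 1) (hp : ∀ h ∈ H, ∃ n : ℕ, h ^ (n + 1) ∈ M) :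
    ∀ h ∈ H, ∀ k ∈ H, ∀ y ∈ Y, ⁅⁅h, k⁆, y⁆ = 1 := by
  intro h hh k hk
  have hmem : ∀ z, z ∈ Ce H Y ↔ z ∈ H ∧ ∀ y ∈ Y, ⁅z, y⁆ = 1 := fun z => Iff.rfl
  have hH2 : ∀ a ∈ H, ∀ b ∈ H, ⁅a, b⁆ ∈ H := fun a ha b hb => by
    rw [commutatorElement_def]
    exact H.mul_mem (H.mul_mem (H.mul_mem ha hb) (H.inv_mem ha)) (H.inv_mem hb)
  have hHM' : ∀ h ∈ H, ∀ m ∈ M, ⁅h, m⁆ ∈ Ce H Y := fun h hh m hm =>
    ⟨hH2 h hh m (hMH hm), hHM h hh m hm⟩
  set u := ⁅h, k⁆ with hu
  have huM : u ∈ M := hGM h k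
  obtain ⟨n, hn⟩ := hp h hh
  -- work in the quotient
  set π := QuotientGroup.mk' (Ce H Y) with hπ
  have hker : ∀ a : G, a ∈ Ce H Y → π a = 1 := fun a ha => (QuotientGroup.eq_one_iff a).2 ha
  have e1 : Commute (π h) (π u) := by
    have h1 := hker _ (hHM' h hh u huM)
    rw [map_commutatorElement, commutatorElement_eq_one_iff_mul_comm] at h1
    exact h1
  have e2 : Commute (π h ^ (n + 1)) (π k) := by
    have h1 := hker _ (hHM' k hk _ hn)
    rw [map_commutatorElement, commutatorElement_eq_one_iff_mul_comm, map_pow] at h1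
    exact h1.symm
  have e3 : π h * π k * (π h)⁻¹ = π u * π k := by
    rw [hu, map_commutatorElement, commutatorElement_def]; group
  have e4 : ∀ j : ℕ, π h ^ j * π k * (π h ^ j)⁻¹ = π u ^ j * π k := by
    intro j
    induction j with
    | zero => simp
    | succ j ih =>
      calc π h ^ (j + 1) * π k * (π h ^ (j + 1))⁻¹
          = π h * (π h ^ j * π k * (π h ^ j)⁻¹) * (π h)⁻¹ := by rw [pow_succ']; group
        _ = (π h * π u ^ j) * π k * (π h)⁻¹ := by rw [ih]; group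
        _ = π u ^ j * (π h * π k * (π h)⁻¹) := by rw [(e1.pow_right j).eq]; group
        _ = π u ^ (j + 1) * π k := by rw [e3, pow_succ]; group
  have e5 : π u ^ (n + 1) = 1 := by
    have h1 := e4 (n + 1)
    rw [e2.eq, mul_inv_cancel_right] at h1
    exact (mul_eq_right.1 h1.symm)
  have h6 : u ^ (n + 1) ∈ Ce H Y := by
    rw [← map_pow] at e5
    exact (QuotientGroup.eq_one_iff _).1 e5
  intro y hy
  exact comm_one_of_pow (h6.2 y hy)

end small

section T

variable {G : Type u} [Group G] [LinearOrder G] [MulLeftMono G] [MulRightMono G]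

lemma comm_mem_derived (n : ℕ) {a b : G} (ha : a ∈ derivedSeries G n) (hb : b ∈ derivedSeries G n) :
    ⁅a, b⁆ ∈ derivedSeries G (n + 1) := by
  rw [derivedSeries_succ]
  exact Subgroup.commutator_mem_commutator ha hb

lemma comm_mem_one (a b : G) : ⁅a, b⁆ ∈ derivedSeries G 1 :=
  comm_mem_derived 0 (by simp) (by simp)

/-- **The theorem for one subgroup.** -/
theorem derived_length (H : Subgroup G) [hHn : H.Normal] (PH : Set G) (hPH : RelCone H PH)
    (hU : ∀ K : Subgroup G, K.Normal → (∃ P, RelCone K P) → K = ⊥ ∨ K = H ∨ K = ⊤)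
    (hG : ∀ g k : G, ⁅g, k⁆ ∈ H) (h3 : derivedSeries G 3 = ⊥) : derivedSeries G 2 = ⊥ := by
  by_contra hne
  have hMH : derivedSeries G 1 ≤ H := by
    rw [derivedSeries_succ, Subgroup.commutator_le]
    exact fun a _ b _ => hG a b
  have hAM : derivedSeries G 2 ≤ derivedSeries G 1 := derivedSeries_antitone G (by norm_num)
  have hAH := hAM.trans hMH
  have hAn : (derivedSeries G 2).Normal := inferInstance
  have hMn : (derivedSeries G 1).Normal := inferInstance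
  -- `G''` is abelian
  have hA : ∀ a ∈ derivedSeries G 2, ∀ b ∈ derivedSeries G 2, ⁅a, b⁆ = 1 := by
    intro a ha b hb
    have := comm_mem_derived 2 ha hb
    rw [h3, Subgroup.mem_bot] at this
    exact this
  have hAc : ∀ a ∈ derivedSeries G 2, ∀ b ∈ derivedSeries G 2, a * b = b * a := fun a ha b hb =>
    commutatorElement_eq_one_iff_mul_comm.1 (hA a ha b hb)
  obtain ⟨m1, hm1, m2, hm2, hm⟩ : ∃ m1 ∈ derivedSeries G 1, ∃ m2 ∈ derivedSeries G 1, ⁅m1, m2⁆ ≠ 1 := by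
    by_contra hcon
    push Not at hcon
    apply hne
    rw [eq_bot_iff, derivedSeries_succ, Subgroup.commutator_le]
    intro a ha b hb
    rw [hcon a ha b hb]
    exact Subgroup.one_mem _
  -- a commutator which is infinitely small with respect to an entry
  obtain ⟨c, x, hc, hx, hc1, hx1, hcx⟩ : ∃ c x : G, c ∈ H ∧ x ∈ H ∧ c ≠ 1 ∧ 1 < x ∧ c ∈ small x := by
    have key : ∀ y x : G, x ∈ H → ⁅y, x⁆ ≠ 1 → Commute ⁅y, x⁆ y → ⁅y, x⁻¹⁆ ≠ 1 →
        Commute ⁅y, x⁻¹⁆ y → ∃ c x : G, c ∈ H ∧ x ∈ H ∧ c ≠ 1 ∧ 1 < x ∧ c ∈ small x := by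
      intro y x hx h1 h2 h4 h5
      rcases lt_trichotomy 1 x with h | h | h
      · exact ⟨_, x, hG y x, hx, h1, h, comm_small h h2⟩
      · exfalso; apply h1; rw [← h]; simp [commutatorElement_def]
      · have h' := one_lt_inv'.2 h
        exact ⟨_, x⁻¹, hG y x⁻¹, H.inv_mem hx, h4, h', comm_small h' h5⟩
    by_cases hcase : ∃ a ∈ derivedSeries G 2, ∃ x ∈ H, ⁅a, x⁆ ≠ 1
    · obtain ⟨a, ha, x, hx, hax⟩ := hcase
      have hin : ∀ x : G, ⁅a, x⁆ ∈ derivedSeries G 2 := by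
        intro x
        have h1 : ⁅a, x⁆ = a * (x * a⁻¹ * x⁻¹) := by rw [commutatorElement_def]; group
        rw [h1]
        exact Subgroup.mul_mem _ ha (hAn.conj_mem _ (Subgroup.inv_mem _ ha) x)
      refine key a x hx hax (hAc _ (hin x) _ ha) ?_ (hAc _ (hin x⁻¹) _ ha)
      intro h
      apply hax
      rw [commutatorElement_eq_one_iff_mul_comm] at h ⊢
      exact (Commute.inv_right_iff.1 (show Commute a x⁻¹ from h)).eq
    · push Not at hcase
      have hcen : ∀ a ∈ derivedSeries G 2, ∀ x ∈ H, a * x = x * a := fun a ha x hx =>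
        commutatorElement_eq_one_iff_mul_comm.1 (hcase a ha x hx)
      refine key m1 m2 (hMH hm2) hm (hcen _ (comm_mem_derived 1 hm1 hm2) _ (hMH hm1)) ?_
        (hcen _ (comm_mem_derived 1 hm1 (Subgroup.inv_mem _ hm2)) _ (hMH hm1))
      intro h
      apply hm
      rw [commutatorElement_eq_one_iff_mul_comm] at h ⊢
      exact (Commute.inv_right_iff.1 (show Commute m1 m2⁻¹ from h)).eq
  -- powers of the elements of `H`
  have hMne : derivedSeries G 1 ≠ ⊥ := fun h => hne (le_antisymm (h ▸ hAM) bot_le)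
  have hp : ∀ h ∈ H, ∃ n : ℕ, h ^ (n + 1) ∈ derivedSeries G 1 := by
    have htop : RelCone (⊤ : Subgroup G) (∅ : Set G) :=
      ⟨by simp, by simp, fun a => Or.inl (Subgroup.mem_top a), by simp, by simp⟩
    obtain ⟨K, hKn, hLK, -, hKP, hKa⟩ := pos_rel (H := (⊤ : Subgroup G)) (L := derivedSeries G 1)
      le_top (fun h _ k _ => comm_mem_one h k) (fun g k => Subgroup.mem_top _) ∅ htop
    have hHK : H ≤ K := by
      rcases hU K hKn hKP with h | h | h
      · exact absurd (le_antisymm (h ▸ hLK) bot_le) hMne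
      · exact h.ge
      · rw [h]; exact le_top
    intro h hh
    obtain ⟨a, ha, e⟩ := hKa h (hHK hh)
    have hcm : ∀ p q : G ⧸ derivedSeries G 1, p * q = q * p := by
      intro p q
      obtain ⟨p, rfl⟩ := QuotientGroup.mk'_surjective _ p
      obtain ⟨q, rfl⟩ := QuotientGroup.mk'_surjective _ q
      rw [← map_mul, ← map_mul]
      refine (QuotientGroup.eq.2 ?_)
      have := comm_mem_one (G := G) q⁻¹ p⁻¹
      rw [commutatorElement_def] at this
      rwa [show (p * q)⁻¹ * (q * p) = q⁻¹ * p⁻¹ * q⁻¹⁻¹ * p⁻¹⁻¹ by group]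
    have hpw : ∀ a : G ⧸ derivedSeries G 1 → G ⧸ derivedSeries G 1, Nu a →
        ∃ n : ℕ, ∀ v, a v = v ^ (n + 1) := by
      intro a ha
      induction ha with
      | base g => exact ⟨0, fun v => by
          show g * v * g⁻¹ = v ^ (0 + 1)
          rw [hcm g v]; group⟩
      | add a b _ _ iha ihb =>
        obtain ⟨n, hn⟩ := iha
        obtain ⟨k, hk⟩ := ihb
        exact ⟨n + 1 + k, fun v => by
          show a v * b v = _
          rw [hn, hk, ← pow_add]; rfl⟩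
    obtain ⟨n, hn⟩ := hpw a ha
    refine ⟨n, ?_⟩
    rw [hn, ← map_pow] at e
    exact (QuotientGroup.eq_one_iff _).1 e
  -- Step 1
  have hconj : ∀ (g h : G) (m : G), h ∈ H → m ∈ derivedSeries G 1 → ∃ α ∈ derivedSeries G 2,
      ⁅g * h * g⁻¹, m⁆ = α * ⁅h, m⁆ := by
    intro g h m hh hm'
    set μ := ⁅g, h⁆ with hμ
    have hμM : μ ∈ derivedSeries G 1 := comm_mem_one g h
    have hv : ⁅h, m⁆ ∈ derivedSeries G 1 := comm_mem_one h m
    refine ⟨⁅μ, ⁅h, m⁆⁆ * (⁅h, m⁆ * ⁅μ, m⁆ * ⁅h, m⁆⁻¹), ?_, ?_⟩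
    · exact Subgroup.mul_mem _ (comm_mem_derived 1 hμM hv)
        (hAn.conj_mem _ (comm_mem_derived 1 hμM hm') _)
    · rw [hμ]
      simp only [commutatorElement_def]
      group
  have step1 : ∀ h ∈ H, ∀ m ∈ derivedSeries G 1, ∀ a ∈ derivedSeries G 2, ⁅⁅h, m⁆, a⁆ = 1 := by
    intro h hh m hm' a ha
    refine double_comm hU hc hx hc1 hx1 hcx hh m a _ ?_
    intro g
    obtain ⟨α, hα, e⟩ := hconj g h m hh hm'
    rw [e]
    have h1 : ⁅h, m⁆ * a * ⁅h, m⁆⁻¹ ∈ derivedSeries G 2 := hAn.conj_mem a ha _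
    have h2 := hAc α hα _ h1
    rw [commutatorElement_def (α * ⁅h, m⁆) a, commutatorElement_def ⁅h, m⁆ a]
    calc α * ⁅h, m⁆ * a * (α * ⁅h, m⁆)⁻¹ * a⁻¹ = (α * (⁅h, m⁆ * a * ⁅h, m⁆⁻¹)) * α⁻¹ * a⁻¹ := by group
      _ = _ := by rw [h2]; group
  have step2 := comm_central (Y := derivedSeries G 2) comm_mem_one hMH step1 hp
  have step3 : ∀ x ∈ H, ∀ y ∈ derivedSeries G 2, ⁅x, y⁆ = 1 := by
    refine main_lemma H (derivedSeries G 2) PH hPH hU hG step2 ?_ ?_
    · intro x hx a ha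
      have h1 : ⁅a, x⁆ ∈ derivedSeries G 2 := by
        have h1 : ⁅a, x⁆ = a * (x * a⁻¹ * x⁻¹) := by rw [commutatorElement_def]; group
        rw [h1]
        exact Subgroup.mul_mem _ ha (hAn.conj_mem _ (Subgroup.inv_mem _ ha) x)
      exact hAc _ h1 _ ha
    · intro h
      apply hne
      rw [eq_bot_iff, ← h]
      exact fun a ha => ⟨hAH ha, fun y hy => hA a ha y hy⟩
  have hAcen : ∀ x ∈ H, ∀ a ∈ derivedSeries G 2, x * a = a * x := fun x hx a ha =>
    commutatorElement_eq_one_iff_mul_comm.1 (step3 x hx a ha)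
  have step4 : ∀ h ∈ H, ∀ m ∈ derivedSeries G 1, ∀ y ∈ H, ⁅⁅h, m⁆, y⁆ = 1 := by
    intro h hh m hm' y hy
    refine double_comm hU hc hx hc1 hx1 hcx hh m y _ ?_
    intro g
    obtain ⟨α, hα, e⟩ := hconj g h m hh hm'
    rw [e]
    have h1 : ⁅h, m⁆ * y * ⁅h, m⁆⁻¹ ∈ H := hHn.conj_mem y hy _
    have h2 := hAcen _ h1 α hα
    rw [commutatorElement_def (α * ⁅h, m⁆) y, commutatorElement_def ⁅h, m⁆ y]
    calc α * ⁅h, m⁆ * y * (α * ⁅h, m⁆)⁻¹ * y⁻¹ = (α * (⁅h, m⁆ * y * ⁅h, m⁆⁻¹)) * α⁻¹ * y⁻¹ := by group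
      _ = _ := by rw [← h2]; group
  have step5 := comm_central (Y := H) comm_mem_one hMH step4 hp
  have step6 : ∀ x ∈ H, ∀ y ∈ H, ⁅x, y⁆ = 1 := by
    refine main_lemma H H PH hPH hU hG step5 ?_ ?_
    · intro x hx y hy
      exact commutatorElement_eq_one_iff_mul_comm.1 (step5 y hy x hx y hy)
    · intro h
      apply hne
      rw [eq_bot_iff, ← h]
      exact fun a ha => ⟨hAH ha, fun y hy => by
        rw [commutatorElement_eq_one_iff_mul_comm]
        exact (hAcen y hy a ha).symm⟩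
  exact hm (step6 m1 (hMH hm1) m2 (hMH hm2))

end T

end Pool.Agent.V11279.OC
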