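import Pool.Agent.V11279.OC.Ord

/-! Positive relations and orderable quotients. -/

set_option autoImplicit false
set_option linter.unusedSectionVars false

namespace Pool.Agent.V11279.OC

open scoped commutatorElement

universe u

variable {Q : Type u} [Group Q]

/-- sums of conjugations, written multiplicatively -/
inductive Nu : (Q → Q) → Prop
  | base (g : Q) : Nu (fun v => g * v * g⁻¹)
  | add (a b : Q → Q) : Nu a → Nu b → Nu (fun v => a v * b v)

lemma Nu.mem {B : Subgroup Q} [hB : B.Normal] {a : Q → Q} (h : Nu a) {v : Q} (hv : v ∈ B) : a v ∈ B := by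
  induction h with
  | base g => exact hB.conj_mem v hv g
  | add a b _ _ ha hb => exact B.mul_mem ha hb

lemma Nu.memP {P : Set Q} (hm : ∀ a ∈ P, ∀ b ∈ P, a * b ∈ P) (hc : ∀ a ∈ P, ∀ g : Q, g * a * g⁻¹ ∈ P)
    {a : Q → Q} (h : Nu a) {v : Q} (hv : v ∈ P) : a v ∈ P := by
  induction h with
  | base g => exact hc v hv g
  | add a b _ _ ha hb => exact hm _ ha _ hb

lemma Nu.one {a : Q → Q} (h : Nu a) : a 1 = 1 := by
  induction h with
  | base g => simp
  | add a b _ _ ha hb => simp only [ha, hb, mul_one]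

section ab

variable {B : Subgroup Q} [hB : B.Normal] (hab : ∀ a ∈ B, ∀ b ∈ B, a * b = b * a)
  (hQ : ∀ g k : Q, ⁅g, k⁆ ∈ B)

include hab

lemma Nu.map_mul {a : Q → Q} (h : Nu a) {v w : Q} (hv : v ∈ B) (hw : w ∈ B) :
    a (v * w) = a v * a w := by
  induction h with
  | base g => simp only; group
  | add a b ha hb iha ihb =>
    simp only
    rw [iha, ihb]
    have h1 : a w ∈ B := ha.mem hw
    have h2 : b v ∈ B := hb.mem hv
    calc a v * a w * (b v * b w) = a v * (a w * b v) * b w := by group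
      _ = a v * (b v * a w) * b w := by rw [hab _ h1 _ h2]
      _ = _ := by group

lemma Nu.map_inv {a : Q → Q} (h : Nu a) {v : Q} (hv : v ∈ B) : a v⁻¹ = (a v)⁻¹ := by
  have h1 := h.map_mul hab hv (B.inv_mem hv)
  rw [mul_inv_cancel, h.one] at h1
  exact (inv_eq_of_mul_eq_one_right h1.symm).symm

include hQ

lemma conj_comm (g k : Q) {v : Q} (hv : v ∈ B) :
    g * (k * v * k⁻¹) * g⁻¹ = k * (g * v * g⁻¹) * k⁻¹ := by
  have h1 : ⁅g, k⁆ ∈ B := hQ g k
  have h2 : k * (g * v * g⁻¹) * k⁻¹ ∈ B := hB.conj_mem _ (hB.conj_mem _ hv g) k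
  have h3 := hab _ h1 _ h2
  rw [commutatorElement_def] at h3
  calc g * (k * v * k⁻¹) * g⁻¹
      = (g * k * g⁻¹ * k⁻¹) * (k * (g * v * g⁻¹) * k⁻¹) * (g * k * g⁻¹ * k⁻¹)⁻¹ := by group
    _ = k * (g * v * g⁻¹) * k⁻¹ := by rw [h3]; group

lemma Nu.comm {a b : Q → Q} (ha : Nu a) (hb : Nu b) {v : Q} (hv : v ∈ B) : a (b v) = b (a v) := by
  induction ha generalizing v with
  | base g =>
    induction hb generalizing v with
    | base k => exact conj_comm hab hQ g k hv
    | add c d hc hd ihc ihd =>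
      simp only
      have h1 := ihc hv
      have h2 := ihd hv
      simp only at h1 h2
      rw [← h1, ← h2]; group
  | add c d hc hd ihc ihd =>
    simp only
    rw [hb.map_mul hab (hc.mem hv) (hd.mem hv), ← ihc hv, ← ihd hv]

/-- **Orderable quotients.** `K` consists of the elements of the abelian normal subgroup `B` which are
killed by a nonempty sum of conjugations. -/
theorem exists_cone (PB : Set Q) (hPB : RelCone B PB) : ∃ K : Subgroup Q, K.Normal ∧ K ≤ B ∧
    (∃ P, RelCone K P) ∧ (∀ v ∈ K, ∃ a, Nu a ∧ a v = 1) := by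
  -- the family of the invariant semigroups
  obtain ⟨P, -, hmax⟩ := zorn_subset_nonempty
    {P : Set Q | (∀ v ∈ P, v ∈ B) ∧ (∀ a ∈ P, ∀ b ∈ P, a * b ∈ P) ∧ (∀ a ∈ P, ∀ g : Q, g * a * g⁻¹ ∈ P) ∧
      (1 : Q) ∉ P} (by
      intro c hc hchain hne
      refine ⟨⋃₀ c, ⟨?_, ?_, ?_, ?_⟩, fun s hs => Set.subset_sUnion_of_mem hs⟩
      · rintro v ⟨s, hs, hv⟩
        exact (hc hs).1 v hv
      · rintro a ⟨s, hs, ha⟩ b ⟨t, ht, hb⟩
        rcases hchain.total hs ht with h | h
        · exact ⟨t, ht, (hc ht).2.1 a (h ha) b hb⟩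
        · exact ⟨s, hs, (hc hs).2.1 a ha b (h hb)⟩
      · rintro a ⟨s, hs, ha⟩ g
        exact ⟨s, hs, (hc hs).2.2.1 a ha g⟩
      · rintro ⟨s, hs, h1⟩
        exact (hc hs).2.2.2 h1) ∅ ⟨by simp, by simp, by simp, by simp⟩
  obtain ⟨hP1, hP2, hP3, hP4⟩ := hmax.prop
  have hid : Nu (fun v : Q => v) := by
    have := Nu.base (1 : Q)
    simpa using this
  -- the extension by one element
  have hext : ∀ y ∈ B, y ∉ P → ∃ a, Nu a ∧ ∃ p, (p = 1 ∨ p ∈ P) ∧ p * a y = 1 := by
    intro y hy hyP
    by_contra hcon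
    push Not at hcon
    have hmem : {v : Q | v ∈ P ∨ ∃ a, Nu a ∧ ∃ p, (p = 1 ∨ p ∈ P) ∧ v = p * a y} ∈
        {P : Set Q | (∀ v ∈ P, v ∈ B) ∧ (∀ a ∈ P, ∀ b ∈ P, a * b ∈ P) ∧
          (∀ a ∈ P, ∀ g : Q, g * a * g⁻¹ ∈ P) ∧ (1 : Q) ∉ P} := by
      have hpB : ∀ p : Q, (p = 1 ∨ p ∈ P) → p ∈ B := by
        rintro p (rfl | h)
        · exact B.one_mem
        · exact hP1 p h
      refine ⟨?_, ?_, ?_, ?_⟩
      · rintro v (h | ⟨a, ha, p, hp, rfl⟩)
        · exact hP1 v h
        · exact B.mul_mem (hpB p hp) (ha.mem hy)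
      · rintro v (h | ⟨a, ha, p, hp, rfl⟩) w (h' | ⟨b, hb, q, hq, rfl⟩)
        · exact Or.inl (hP2 v h w h')
        · right
          refine ⟨b, hb, v * q, Or.inr ?_, by group⟩
          rcases hq with rfl | hq
          · simpa using h
          · exact hP2 v h q hq
        · right
          refine ⟨a, ha, p * w, Or.inr ?_, ?_⟩
          · rcases hp with rfl | hp
            · simpa using h'
            · exact hP2 p hp w h'
          · have := hab _ (ha.mem hy) _ (hP1 w h')
            calc p * a y * w = p * (a y * w) := by group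
              _ = p * (w * a y) := by rw [this]
              _ = _ := by group
        · right
          refine ⟨fun v => a v * b v, Nu.add a b ha hb, p * q, ?_, ?_⟩
          · rcases hp with rfl | hp
            · simpa using hq
            · right
              rcases hq with rfl | hq
              · simpa using hp
              · exact hP2 p hp q hq
          · have := hab _ (ha.mem hy) _ (hpB q hq)
            calc p * a y * (q * b y) = p * (a y * q) * b y := by group
              _ = p * (q * a y) * b y := by rw [this]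
              _ = _ := by group
      · rintro v (h | ⟨a, ha, p, hp, rfl⟩) g
        · exact Or.inl (hP3 v h g)
        · right
          -- conjugation of the operator
          have hcj : ∃ b, Nu b ∧ b y = g * a y * g⁻¹ := by
            have key : ∀ a : Q → Q, Nu a → ∃ b, Nu b ∧ ∀ z, b z = g * a z * g⁻¹ := by
              intro a ha
              induction ha with
              | base k => exact ⟨_, Nu.base (g * k), fun z => by group⟩
              | add c d _ _ ihc ihd =>
                obtain ⟨c', hc', e1⟩ := ihc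
                obtain ⟨d', hd', e2⟩ := ihd
                exact ⟨_, Nu.add c' d' hc' hd', fun z => by simp only [e1, e2]; group⟩
            obtain ⟨b, hb, e⟩ := key a ha
            exact ⟨b, hb, e y⟩
          obtain ⟨b, hb, e⟩ := hcj
          refine ⟨b, hb, g * p * g⁻¹, ?_, ?_⟩
          · rcases hp with rfl | hp
            · left; group
            · right; exact hP3 p hp g
          · rw [e]; group
      · rintro (h | ⟨a, ha, p, hp, h⟩)
        · exact hP4 h
        · exact hcon a ha p hp h.symm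
    have h1 := hmax.le_of_ge hmem (fun v hv => Or.inl hv)
    exact hyP (h1 (Or.inr ⟨_, hid, 1, Or.inl rfl, by simp⟩))
  -- the trichotomy
  have htri : ∀ y ∈ B, (∃ a, Nu a ∧ a y = 1) ∨ y ∈ P ∨ y⁻¹ ∈ P := by
    intro y hy
    by_cases h1 : y ∈ P
    · exact Or.inr (Or.inl h1)
    by_cases h2 : y⁻¹ ∈ P
    · exact Or.inr (Or.inr h2)
    left
    obtain ⟨a, ha, p, hp, e1⟩ := hext y hy h1
    obtain ⟨b, hb, q, hq, e2⟩ := hext y⁻¹ (B.inv_mem hy) h2
    rcases hp with rfl | hp
    · exact ⟨a, ha, by simpa using e1⟩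
    exfalso
    have hqB : q ∈ B := by
      rcases hq with rfl | h
      · exact B.one_mem
      · exact hP1 q h
    rw [hb.map_inv hab hy] at e2
    have e3 : b p * b (a y) = 1 := by
      rw [← hb.map_mul hab (hP1 p hp) (ha.mem hy), e1, hb.one]
    have e4 : a q * (a (b y))⁻¹ = 1 := by
      rw [← ha.map_inv hab (hb.mem hy), ← ha.map_mul hab hqB (B.inv_mem (hb.mem hy)), e2, ha.one]
    have e5 : a q * b p = 1 := by
      rw [ha.comm hab hQ hb hy] at e4
      have e6 : a q = b (a y) := mul_inv_eq_one.1 e4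
      rw [e6, hab _ (hb.mem (ha.mem hy)) _ (hb.mem (hP1 p hp))]
      exact e3
    have h3 : b p ∈ P := hb.memP hP2 hP3 hp
    apply hP4
    rw [← e5]
    rcases hq with rfl | hq
    · rw [ha.one, one_mul]; exact h3
    · exact hP2 _ (ha.memP hP2 hP3 hq) _ h3
  have hdis : ∀ y ∈ P, ¬ ∃ a, Nu a ∧ a y = 1 := by
    rintro y hy ⟨a, ha, e⟩
    apply hP4
    rw [← e]
    exact ha.memP hP2 hP3 hy
  -- composition of operators
  have hcomp : ∀ a : Q → Q, Nu a → ∀ b : Q → Q, Nu b → ∃ c, Nu c ∧ ∀ v ∈ B, c v = a (b v) := by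
    intro a ha b hb
    induction hb with
    | base k =>
      induction ha with
      | base g => exact ⟨_, Nu.base (g * k), fun v _ => by group⟩
      | add c d _ _ ihc ihd =>
        obtain ⟨c', hc', e1⟩ := ihc
        obtain ⟨d', hd', e2⟩ := ihd
        exact ⟨_, Nu.add c' d' hc' hd', fun v hv => by simp only [e1 v hv, e2 v hv]⟩
    | add c d hc hd ihc ihd =>
      obtain ⟨c', hc', e1⟩ := ihc
      obtain ⟨d', hd', e2⟩ := ihd
      exact ⟨_, Nu.add c' d' hc' hd', fun v hv => by
        simp only [e1 v hv, e2 v hv, ha.map_mul hab (hc.mem hv) (hd.mem hv)]⟩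
  let K : Subgroup Q :=
    { carrier := {v | v ∈ B ∧ ∃ a, Nu a ∧ a v = 1}
      one_mem' := ⟨B.one_mem, _, hid, rfl⟩
      mul_mem' := by
        rintro v w ⟨hv, a, ha, e1⟩ ⟨hw, b, hb, e2⟩
        refine ⟨B.mul_mem hv hw, ?_⟩
        obtain ⟨c, hc, e3⟩ := hcomp a ha b hb
        refine ⟨c, hc, ?_⟩
        rw [e3 _ (B.mul_mem hv hw), hb.map_mul hab hv hw, ha.map_mul hab (hb.mem hv) (hb.mem hw), e2,
          ha.one, ha.comm hab hQ hb hv, e1, hb.one, one_mul]
      inv_mem' := by
        rintro v ⟨hv, a, ha, e1⟩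
        exact ⟨B.inv_mem hv, a, ha, by rw [ha.map_inv hab hv, e1, inv_one]⟩ }
  refine ⟨K, ⟨?_⟩, fun v hv => hv.1, ⟨P ∪ PB, ?_, ?_, ?_, ?_, ?_⟩, fun v hv => hv.2⟩
  · rintro v ⟨hv, a, ha, e⟩ g
    refine ⟨hB.conj_mem v hv g, a, ha, ?_⟩
    have h1 := ha.comm hab hQ (Nu.base g) hv
    rw [h1, e]; group
  · have hcross : ∀ p ∈ P, ∀ q ∈ PB, p * q ∈ PB ∧ q * p ∈ PB := by
      intro p hp q hq
      have hpB := hP1 p hp
      have hqn := hPB.nmem q hq
      constructor
      · rcases hPB.tri (p * q) with h | h | h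
        · exact absurd ((B.mul_mem_cancel_left hpB).1 h) hqn
        · exact h
        · exfalso
          have := hPB.mul _ hq _ h
          rw [mul_inv_rev, mul_inv_cancel_left] at this
          exact hPB.nmem _ this (B.inv_mem hpB)
      · rcases hPB.tri (q * p) with h | h | h
        · exact absurd ((B.mul_mem_cancel_right hpB).1 h) hqn
        · exact h
        · exfalso
          have := hPB.mul _ h _ hq
          rw [mul_inv_rev, inv_mul_cancel_right] at this
          exact hPB.nmem _ this (B.inv_mem hpB)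
    rintro a (ha | ha) b (hb | hb)
    · exact Or.inl (hP2 a ha b hb)
    · exact Or.inr (hcross a ha b hb).1
    · exact Or.inr (hcross b hb a ha).2
    · exact Or.inr (hPB.mul a ha b hb)
  · rintro a (ha | ha) g
    · exact Or.inl (hP3 a ha g)
    · exact Or.inr (hPB.conj a ha g)
  · intro a
    rcases hPB.tri a with h | h | h
    · rcases htri a h with h1 | h1 | h1
      · exact Or.inl ⟨h, h1⟩
      · exact Or.inr (Or.inl (Or.inl h1))
      · exact Or.inr (Or.inr (Or.inl h1))
    · exact Or.inr (Or.inl (Or.inr h))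
    · exact Or.inr (Or.inr (Or.inr h))
  · rintro a (ha | ha) (hb | hb)
    · apply hP4
      have := hP2 a ha _ hb
      rwa [mul_inv_cancel] at this
    · exact hPB.nmem _ hb (B.inv_mem (hP1 a ha))
    · have h1 := B.inv_mem (hP1 _ hb)
      rw [inv_inv] at h1
      exact hPB.nmem _ ha h1
    · exact hPB.asym a ha hb
  · rintro a (ha | ha) ⟨h1, h2⟩
    · exact hdis a ha h2
    · exact hPB.nmem a ha h1

end ab

end Pool.Agent.V11279.OC
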